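import Pool.Agent.L0h54.GC.LS
import Pool.Agent.N368.TS.Var

set_option autoImplicit false

/-!
# Moments of sums of Legendre symbols over primes
-/

namespace Pool.Agent.L0h41.MQ

open Finset
open Pool.Agent.H306R2.RZ Pool.Agent.L0h54.GC

lemma pow_tuple (I : Finset ℕ) (c s : ℕ → ℝ) (k : ℕ) : (∑ n ∈ I, c n * s n) ^ k =
    ∑ t ∈ Fintype.piFinset (fun _ : Fin k => I), (∏ j, c (t j)) * ∏ j, s (t j) := by
  have h1 : (∑ n ∈ I, c n * s n) ^ k = ∏ _j : Fin k, ∑ n ∈ I, c n * s n := by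
    rw [prod_const, card_univ, Fintype.card_fin]
  rw [h1, prod_univ_sum]
  refine sum_congr rfl fun t _ => ?_
  rw [prod_mul_distrib]

lemma js_prod {κ : Type} (S : Finset κ) (t : κ → ℕ) (l : ℕ) :
    js ((∏ j ∈ S, t j : ℕ) : ℤ) l = ∏ j ∈ S, js (t j) l := by
  classical
  induction S using Finset.induction_on with
  | empty => simp [js]
  | insert a S ha ih => rw [prod_insert ha, prod_insert ha, js_mul, ih]

/-- the signs given by a set -/
noncomputable def sg (T : Finset ℕ) (p : ℕ) : ℝ := by classical exact if p ∈ T then -1 else 1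

lemma sg_add (I : Finset ℕ) (f : ℕ → ℝ → ℝ) : ∑ T ∈ I.powerset, ∏ p ∈ I, f p (sg T p) =
    ∏ p ∈ I, (f p (-1) + f p 1) := by
  classical
  rw [prod_add]
  refine sum_congr rfl fun T hT => ?_
  rw [mem_powerset] at hT
  rw [← prod_sdiff hT, mul_comm]
  congr 1
  · refine prod_congr rfl fun p hp => ?_
    unfold sg
    rw [if_pos hp]
  · refine prod_congr rfl fun p hp => ?_
    unfold sg
    rw [if_neg (mem_sdiff.1 hp).2]

/-- the multiplicity of `p` in a tuple -/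
def mu {k : ℕ} (t : Fin k → ℕ) (p : ℕ) : ℕ := (univ.filter (fun j => t j = p)).card

lemma prod_fib {k : ℕ} {M : Type} [CommMonoid M] (I : Finset ℕ) (t : Fin k → ℕ) (ht : ∀ j, t j ∈ I) (f : ℕ → M) :
    ∏ j, f (t j) = ∏ p ∈ I, f p ^ mu t p := by
  rw [← prod_fiberwise_of_maps_to (s := univ) (t := I) (g := t) (fun j _ => ht j)]
  refine prod_congr rfl fun p _ => ?_
  unfold mu
  rw [prod_congr rfl (g := fun _ => f p), prod_const]
  intro j hj
  rw [(mem_filter.1 hj).2]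

lemma even_of_square (I : Finset ℕ) (hI : ∀ p ∈ I, p.Prime) (e : ℕ → ℕ) (h : IsSquare (∏ p ∈ I, p ^ e p)) :
    ∀ p ∈ I, Even (e p) := by
  intro q hq
  obtain ⟨m, hm⟩ := h
  have hne : ∏ p ∈ I, p ^ e p ≠ 0 := prod_ne_zero_iff.2 fun p hp => pow_ne_zero _ (hI p hp).ne_zero
  have hm0 : m ≠ 0 := by
    rintro rfl
    exact hne (by rw [hm])
  have h1 : (∏ p ∈ I, p ^ e p).factorization q = e q := by
    rw [Nat.factorization_prod (fun p hp => pow_ne_zero _ (hI p hp).ne_zero), Finsupp.finsetSum_apply,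
      sum_eq_single q]
    · rw [(hI q hq).factorization_pow, Finsupp.single_eq_same]
    · intro p hp hpq
      rw [(hI p hp).factorization_pow, Finsupp.single_eq_of_ne (Ne.symm hpq)]
    · intro h
      exact absurd hq h
  rw [hm, Nat.factorization_mul hm0 hm0, Finsupp.add_apply] at h1
  exact ⟨_, h1.symm⟩

lemma sg_pair {k : ℕ} (I : Finset ℕ) (hI : ∀ p ∈ I, p.Prime) (t t' : Fin k → ℕ) (ht : ∀ j, t j ∈ I)
    (ht' : ∀ j, t' j ∈ I) :
    (2 : ℝ) ^ I.card * sqi ((∏ j, t j) * ∏ j, t' j) ≤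
      ∑ T ∈ I.powerset, (∏ j, sg T (t j)) * ∏ j, sg T (t' j) := by
  have h1 : ∑ T ∈ I.powerset, (∏ j, sg T (t j)) * ∏ j, sg T (t' j) =
      ∏ p ∈ I, ((-1 : ℝ) ^ (mu t p + mu t' p) + 1) := by
    have h2 := sg_add I (fun p x => x ^ (mu t p + mu t' p))
    simp only [one_pow] at h2
    rw [← h2]
    refine sum_congr rfl fun T _ => ?_
    rw [prod_fib I t ht, prod_fib I t' ht', ← prod_mul_distrib]
    refine prod_congr rfl fun p _ => ?_
    rw [pow_add]
  rw [h1]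
  unfold sqi
  split_ifs with h
  · have h3 : (∏ j, t j) * ∏ j, t' j = ∏ p ∈ I, p ^ (mu t p + mu t' p) := by
      rw [prod_fib I t ht (fun p => p), prod_fib I t' ht' (fun p => p), ← prod_mul_distrib]
      refine prod_congr rfl fun p _ => ?_
      rw [pow_add]
    rw [h3] at h
    have h4 := even_of_square I hI _ h
    rw [mul_one, ← prod_const]
    refine le_of_eq (prod_congr rfl fun p hp => ?_)
    rw [(h4 p hp).neg_one_pow]
    norm_num
  · rw [mul_zero]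
    refine prod_nonneg fun p _ => ?_
    rcases neg_one_pow_eq_or ℝ (mu t p + mu t' p) with h | h <;> rw [h] <;> norm_num

lemma sg_exp (I : Finset ℕ) (c : ℕ → ℝ) :
    ∑ T ∈ I.powerset, Real.exp (∑ p ∈ I, c p * sg T p) ≤ 2 ^ I.card * Real.exp ((∑ p ∈ I, c p ^ 2) / 2) := by
  have h1 : ∀ T ∈ I.powerset, Real.exp (∑ p ∈ I, c p * sg T p) = ∏ p ∈ I, Real.exp (c p * sg T p) :=
    fun T _ => Real.exp_sum _ _
  rw [sum_congr rfl h1, sg_add I (fun p x => Real.exp (c p * x)), sum_div, Real.exp_sum, ← prod_const,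
    ← prod_mul_distrib]
  refine prod_le_prod (fun p _ => by positivity) fun p _ => ?_
  have h2 := Real.cosh_le_exp_half_sq (c p)
  rw [Real.cosh_eq] at h2
  rw [mul_neg_one, mul_one]
  linarith

lemma sg_mom (I : Finset ℕ) (c : ℕ → ℝ) (k : ℕ) (U : ℝ) (hU : 0 < U) (hc : ∑ p ∈ I, c p ^ 2 ≤ U) :
    ∑ T ∈ I.powerset, (∑ p ∈ I, c p * sg T p) ^ (2 * k) ≤ 2 ^ I.card * (4 * (2 * k).factorial * U ^ k) := by
  obtain ⟨l, hl⟩ : ∃ l, l = 1 / √U := ⟨_, rfl⟩
  have hs : 0 < √U := Real.sqrt_pos.2 hU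
  have hl0 : 0 < l := by rw [hl]; positivity
  have hl2 : l ^ 2 * U = 1 := by
    rw [hl, div_pow, Real.sq_sqrt hU.le]
    field_simp
  have hkey : ∀ a : ℝ, |a| = l → ∑ T ∈ I.powerset, Real.exp (a * ∑ p ∈ I, c p * sg T p) ≤ 2 ^ I.card * 2 := by
    intro a ha
    have h1 := sg_exp I (fun p => a * c p)
    have e1 : ∀ T, ∑ p ∈ I, a * c p * sg T p = a * ∑ p ∈ I, c p * sg T p := by
      intro T
      rw [mul_sum]
      exact sum_congr rfl fun p _ => by ring
    simp only [e1] at h1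
    refine h1.trans (mul_le_mul_of_nonneg_left ?_ (by positivity))
    have e2 : ∑ p ∈ I, (a * c p) ^ 2 = l ^ 2 * ∑ p ∈ I, c p ^ 2 := by
      rw [mul_sum, ← ha, sq_abs]
      exact sum_congr rfl fun p _ => by ring
    rw [e2]
    have h3 : l ^ 2 * ∑ p ∈ I, c p ^ 2 ≤ 1 := by
      rw [← hl2]
      exact mul_le_mul_of_nonneg_left hc (by positivity)
    have h4 : Real.exp ((l ^ 2 * ∑ p ∈ I, c p ^ 2) / 2) ≤ Real.exp (1 / 2) := Real.exp_le_exp.2 (by linarith)
    have h5 : Real.exp (1 / 2) ≤ 2 := by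
      have h6 := Real.exp_one_lt_d9
      have h7 : Real.exp (1 / 2) * Real.exp (1 / 2) = Real.exp 1 := by
        rw [← Real.exp_add]
        norm_num
      have h8 := Real.exp_pos (1 / 2)
      by_contra hcon
      push Not at hcon
      nlinarith
    exact h4.trans h5
  have h1 : ∑ T ∈ I.powerset, (l * ∑ p ∈ I, c p * sg T p) ^ (2 * k) ≤
      (2 * k).factorial * (2 ^ I.card * 2 + 2 ^ I.card * 2) := by
    calc _ ≤ ∑ T ∈ I.powerset, ((2 * k).factorial : ℝ) * (Real.exp (l * ∑ p ∈ I, c p * sg T p) +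
          Real.exp (-l * ∑ p ∈ I, c p * sg T p)) := by
          refine sum_le_sum fun T _ => ?_
          have h := Pool.Agent.N368.TS.pow_le_exp (l * ∑ p ∈ I, c p * sg T p) k
          rwa [← neg_mul] at h
      _ = (2 * k).factorial * (∑ T ∈ I.powerset, Real.exp (l * ∑ p ∈ I, c p * sg T p) +
          ∑ T ∈ I.powerset, Real.exp (-l * ∑ p ∈ I, c p * sg T p)) := by rw [← mul_sum, sum_add_distrib]
      _ ≤ _ := mul_le_mul_of_nonneg_left (add_le_add (hkey l (abs_of_pos hl0)) (hkey (-l) (by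
          rw [abs_neg, abs_of_pos hl0]))) (by positivity)
  have h2 : ∑ T ∈ I.powerset, (l * ∑ p ∈ I, c p * sg T p) ^ (2 * k) =
      l ^ (2 * k) * ∑ T ∈ I.powerset, (∑ p ∈ I, c p * sg T p) ^ (2 * k) := by
    rw [mul_sum]
    exact sum_congr rfl fun T _ => mul_pow _ _ _
  rw [h2] at h1
  have h3 : l ^ (2 * k) * U ^ k = 1 := by rw [pow_mul, ← mul_pow, hl2, one_pow]
  have h4 : 0 < U ^ k := by positivity
  calc ∑ T ∈ I.powerset, (∑ p ∈ I, c p * sg T p) ^ (2 * k) =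
      (l ^ (2 * k) * ∑ T ∈ I.powerset, (∑ p ∈ I, c p * sg T p) ^ (2 * k)) * U ^ k := by
        rw [mul_right_comm, h3, one_mul]
    _ ≤ ((2 * k).factorial * (2 ^ I.card * 2 + 2 ^ I.card * 2)) * U ^ k := mul_le_mul_of_nonneg_right h1 h4.le
    _ = _ := by ring

/-- the number of the pairs of tuples whose product is a square, with weights -/
theorem sq_count (I : Finset ℕ) (hI : ∀ p ∈ I, p.Prime) (c : ℕ → ℝ) (k : ℕ) (U : ℝ) (hU : 0 < U)
    (hc : ∑ p ∈ I, c p ^ 2 ≤ U) :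
    ∑ t ∈ Fintype.piFinset (fun _ : Fin k => I), ∑ t' ∈ Fintype.piFinset (fun _ : Fin k => I),
      |∏ j, c (t j)| * |∏ j, c (t' j)| * sqi ((∏ j, t j) * ∏ j, t' j) ≤ 4 * (2 * k).factorial * U ^ k := by
  have h2 : (0 : ℝ) < 2 ^ I.card := by positivity
  have h1 := sg_mom I (fun p => |c p|) k U hU (by simpa only [sq_abs] using hc)
  have h3 : 2 ^ I.card * ∑ t ∈ Fintype.piFinset (fun _ : Fin k => I), ∑ t' ∈ Fintype.piFinset (fun _ : Fin k => I),
      |∏ j, c (t j)| * |∏ j, c (t' j)| * sqi ((∏ j, t j) * ∏ j, t' j) ≤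
      ∑ T ∈ I.powerset, (∑ p ∈ I, |c p| * sg T p) ^ (2 * k) := by
    have e1 : ∀ T ∈ I.powerset, (∑ p ∈ I, |c p| * sg T p) ^ (2 * k) =
        ∑ t ∈ Fintype.piFinset (fun _ : Fin k => I), ∑ t' ∈ Fintype.piFinset (fun _ : Fin k => I),
          |∏ j, c (t j)| * |∏ j, c (t' j)| * ((∏ j, sg T (t j)) * ∏ j, sg T (t' j)) := by
      intro T _
      rw [mul_comm, pow_mul, pow_tuple, sq, sum_mul_sum]
      refine sum_congr rfl fun t _ => sum_congr rfl fun t' _ => ?_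
      rw [Finset.abs_prod, Finset.abs_prod]
      ring
    rw [sum_congr rfl e1, sum_comm (s := I.powerset), mul_sum]
    refine sum_le_sum fun t ht => ?_
    rw [sum_comm (s := I.powerset), mul_sum]
    refine sum_le_sum fun t' ht' => ?_
    rw [← mul_sum]
    rw [Fintype.mem_piFinset] at ht ht'
    have h4 := sg_pair I hI t t' ht ht'
    calc 2 ^ I.card * (|∏ j, c (t j)| * |∏ j, c (t' j)| * sqi ((∏ j, t j) * ∏ j, t' j)) =
        (|∏ j, c (t j)| * |∏ j, c (t' j)|) * (2 ^ I.card * sqi ((∏ j, t j) * ∏ j, t' j)) := by ring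
      _ ≤ _ := mul_le_mul_of_nonneg_left h4 (by positivity)
  have h5 := h3.trans h1
  exact le_of_mul_le_mul_left h5 h2

/-- **moments of sums of Legendre symbols over primes** -/
theorem mom (I : Finset ℕ) (N k M Q : ℕ) (hI : ∀ p ∈ I, p.Prime ∧ p ≤ N) (c : ℕ → ℝ) (U B : ℝ) (hU : 0 < U)
    (hc : ∑ p ∈ I, c p ^ 2 ≤ U) (hB : 0 ≤ B) (hLS : LSB M Q B) (hM : N ^ k ≤ M) (P : Finset ℕ)
    (hP : ∀ l ∈ P, l.Prime ∧ l ≠ 2 ∧ N < l ∧ l ≤ Q) :
    ∑ l ∈ P, (∑ n ∈ I, c n * js n l) ^ (2 * k) ≤ B * (4 * (2 * k).factorial * U ^ k) := by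
  have e1 : ∀ l ∈ P, (∑ n ∈ I, c n * js n l) ^ (2 * k) =
      (∑ t ∈ Fintype.piFinset (fun _ : Fin k => I), (∏ j, c (t j)) * js ((∏ j, t j : ℕ) : ℤ) l) ^ 2 := by
    intro l _
    rw [mul_comm, pow_mul, pow_tuple I c (fun n => js n l) k]
    congr 1
    refine sum_congr rfl fun t _ => ?_
    rw [js_prod]
  rw [sum_congr rfl e1]
  have hmem : ∀ t ∈ Fintype.piFinset (fun _ : Fin k => I), ∀ j, (t j).Prime ∧ t j ≤ N := by
    intro t ht j
    rw [Fintype.mem_piFinset] at ht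
    exact hI _ (ht j)
  refine (ls_fam hB hLS (Fintype.piFinset (fun _ : Fin k => I)) (fun t => ∏ j, t j) (fun t => ∏ j, c (t j)) P
    ?_ ?_).trans ?_
  · intro l hl
    obtain ⟨h1, h2, h3, h4⟩ := hP l hl
    refine ⟨h1, h2, h4, fun t ht hd => ?_⟩
    obtain ⟨j, _, hj⟩ := (Prime.dvd_finsetProd_iff h1.prime _).1 hd
    have h5 := hmem t ht j
    have := (Nat.prime_dvd_prime_iff_eq h1 h5.1).1 hj
    omega
  · intro t ht
    refine ⟨Nat.one_le_iff_ne_zero.2 (prod_ne_zero_iff.2 fun j _ => (hmem t ht j).1.ne_zero), ?_⟩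
    refine le_trans ?_ hM
    calc ∏ j, t j ≤ ∏ _j : Fin k, N := prod_le_prod' fun j _ => (hmem t ht j).2
      _ = N ^ k := by rw [prod_const, card_univ, Fintype.card_fin]
  · exact mul_le_mul_of_nonneg_left (sq_count I (fun p hp => (hI p hp).1) c k U hU hc) hB

end Pool.Agent.L0h41.MQ
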