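import Pool.Agent.L0h41.MQ.A
import Pool.Agent.Helper112.Arith

set_option autoImplicit false

/-!
# Prime powers in arithmetic progressions twisted by Legendre symbols
-/

namespace Pool.Agent.L0h41.MQ

open Finset
open ArithmeticFunction (vonMangoldt)
open Pool.Agent.H306R2.RZ Pool.Agent.L0h54.GC

/-- an arithmetic progression in an interval -/
def AP (y z q a : ℕ) : Finset ℕ := (Ioc y z).filter (fun n => n ≡ a [MOD q])

lemma mem_AP {y z q a n : ℕ} : n ∈ AP y z q a ↔ (y < n ∧ n ≤ z) ∧ n ≡ a [MOD q] := by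
  unfold AP
  rw [mem_filter, mem_Ioc]

lemma AP_card (y z q a : ℕ) (hyz : y ≤ z) (hq : 1 ≤ q) : ((AP y z q a).card : ℝ) ≤ ((z : ℝ) - y) / q + 1 := by
  unfold AP
  have h1 := Nat.Ioc_filter_modEq_card y z (r := q) hq a
  have hq0 : (0 : ℚ) < q := by exact_mod_cast hq
  have h2 : (((Ioc y z).filter (fun n => n ≡ a [MOD q])).card : ℚ) ≤ ((z : ℚ) - y) / q + 1 := by
    have h3 : (((Ioc y z).filter (fun n => n ≡ a [MOD q])).card : ℚ) =
        ((((Ioc y z).filter (fun n => n ≡ a [MOD q])).card : ℤ) : ℚ) := by push_cast; rfl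
    rw [h3, h1]
    push_cast
    apply max_le
    · have h4 := Int.floor_le (((z : ℚ) - a) / q)
      have h5 := Int.lt_floor_add_one (((y : ℚ) - a) / q)
      have h6 : ((z : ℚ) - y) / q = ((z : ℚ) - a) / q - ((y : ℚ) - a) / q := by ring
      rw [h6]
      linarith
    · have : (0 : ℚ) ≤ (z : ℚ) - y := by
        have : (y : ℚ) ≤ z := by exact_mod_cast hyz
        linarith
      positivity
  have h3 : ((((Ioc y z).filter (fun n => n ≡ a [MOD q])).card : ℚ) : ℝ) ≤ ((((z : ℚ) - y) / q + 1 : ℚ) : ℝ) := by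
    exact_mod_cast h2
  push_cast at h3
  exact h3

open Classical in
/-- the squares in an arithmetic progression -/
theorem sq_AP (y z q a : ℕ) (hyz : y ≤ z) (D : ℝ) (hD0 : 0 ≤ D)
    (hD : ∀ d ∈ Ioc 0 (z - y), (d.divisors.card : ℝ) ≤ D) :
    (((AP y z q a).filter (fun n => IsSquare n)).card : ℝ) ≤ 1 + √(2 * (D * (((z : ℝ) - y) / q))) := by
  obtain ⟨R, hR⟩ : ∃ R, R = (AP y z q a).filter (fun n => IsSquare n) := ⟨_, rfl⟩
  rw [← hR]
  obtain ⟨W, hW⟩ : ∃ W, W = (R ×ˢ R).filter (fun w => w.2 < w.1) := ⟨_, rfl⟩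
  have hsqr : ∀ n ∈ R, Nat.sqrt n * Nat.sqrt n = n := by
    intro n hn
    rw [hR, mem_filter] at hn
    exact (Nat.exists_mul_self n).1 (by obtain ⟨m, hm⟩ := hn.2; exact ⟨m, hm.symm⟩)
  -- the pairs
  have hWc : (W.card : ℝ) ≤ D * (((z : ℝ) - y) / q) := by
    have h1 : W.card ≤ (((Ioc 0 (z - y)).filter (fun d => q ∣ d)).sigma (fun d => d.divisors)).card := by
      apply card_le_card_of_injOn (fun w => ⟨w.1 - w.2, Nat.sqrt w.1 - Nat.sqrt w.2⟩)
      · intro w hw
        rw [mem_coe, hW, mem_filter, mem_product] at hw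
        obtain ⟨⟨h1, h2⟩, h3⟩ := hw
        have s1 := hsqr _ h1
        have s2 := hsqr _ h2
        rw [hR, mem_filter, mem_AP] at h1 h2
        rw [mem_coe, mem_sigma, mem_filter, mem_Ioc, Nat.mem_divisors]
        refine ⟨⟨⟨by simp only; omega, by simp only; omega⟩, ?_⟩, ?_, by simp only; omega⟩
        · simp only
          exact (Nat.modEq_iff_dvd' h3.le).1 (h2.1.2.trans h1.1.2.symm)
        · simp only
          refine ⟨Nat.sqrt w.1 + Nat.sqrt w.2, ?_⟩
          rw [mul_comm, ← Nat.mul_self_sub_mul_self_eq, s1, s2]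
      · intro w hw w' hw' h
        rw [mem_coe, hW, mem_filter, mem_product] at hw hw'
        simp only [Sigma.mk.injEq, heq_eq_eq] at h
        obtain ⟨h1, h2⟩ := h
        have s1 := hsqr _ hw.1.1
        have s2 := hsqr _ hw.1.2
        have s3 := hsqr _ hw'.1.1
        have s4 := hsqr _ hw'.1.2
        obtain ⟨m1, hm1⟩ : ∃ m, m = Nat.sqrt w.1 := ⟨_, rfl⟩
        obtain ⟨m2, hm2⟩ : ∃ m, m = Nat.sqrt w.2 := ⟨_, rfl⟩
        obtain ⟨m3, hm3⟩ : ∃ m, m = Nat.sqrt w'.1 := ⟨_, rfl⟩
        obtain ⟨m4, hm4⟩ : ∃ m, m = Nat.sqrt w'.2 := ⟨_, rfl⟩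
        rw [← hm1] at s1 h2
        rw [← hm2] at s2 h2
        rw [← hm3] at s3 h2
        rw [← hm4] at s4 h2
        have l1 : m2 < m1 := by
          rw [hm1, hm2]
          by_contra hcon
          push Not at hcon
          have := Nat.mul_le_mul hcon hcon
          rw [← hm1, ← hm2] at this
          have := hw.2
          omega
        have l2 : m4 < m3 := by
          rw [hm3, hm4]
          by_contra hcon
          push Not at hcon
          have := Nat.mul_le_mul hcon hcon
          rw [← hm3, ← hm4] at this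
          have := hw'.2
          omega
        obtain ⟨u, hu⟩ := Nat.exists_eq_add_of_lt l1
        obtain ⟨v, hv⟩ := Nat.exists_eq_add_of_lt l2
        have huv : u = v := by omega
        have hsum : m1 + m2 = m3 + m4 := by
          have e1 : (u + 1) * (m1 + m2) = (u + 1) * (m3 + m4) := by
            have e2 : w.1 = w.2 + (w'.1 - w'.2) := by
              have := hw.2
              omega
            have e3 : w'.1 = w'.2 + (w'.1 - w'.2) := by
              have := hw'.2
              omega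
            have e4 : (u + 1) * (m1 + m2) = w'.1 - w'.2 := by
              have : m1 * m1 = m2 * m2 + (u + 1) * (m1 + m2) := by rw [hu]; ring
              omega
            have e5 : (u + 1) * (m3 + m4) = w'.1 - w'.2 := by
              have : m3 * m3 = m4 * m4 + (v + 1) * (m3 + m4) := by rw [hv]; ring
              rw [huv]
              omega
            rw [e4, e5]
          exact Nat.eq_of_mul_eq_mul_left (by omega) e1
        have h13 : m1 = m3 := by omega
        have h24 : m2 = m4 := by omega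
        apply Prod.ext
        · rw [← s1, ← s3, h13]
        · rw [← s2, ← s4, h24]
    rw [card_sigma] at h1
    have h2 : ((∑ d ∈ (Ioc 0 (z - y)).filter (fun d => q ∣ d), d.divisors.card : ℕ) : ℝ) ≤
        ∑ d ∈ (Ioc 0 (z - y)).filter (fun d => q ∣ d), D := by
      push_cast
      exact sum_le_sum fun d hd => hD d (mem_filter.1 hd).1
    rw [sum_const, nsmul_eq_mul, Nat.Ioc_filter_dvd_card_eq_div] at h2
    have h3 : (((z - y) / q : ℕ) : ℝ) ≤ ((z : ℝ) - y) / q := by
      refine Nat.cast_div_le.trans (le_of_eq ?_)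
      rw [Nat.cast_sub hyz]
    calc (W.card : ℝ) ≤ ((∑ d ∈ (Ioc 0 (z - y)).filter (fun d => q ∣ d), d.divisors.card : ℕ) : ℝ) := by
          exact_mod_cast h1
      _ ≤ (((z - y) / q : ℕ) : ℝ) * D := h2
      _ ≤ ((z : ℝ) - y) / q * D := mul_le_mul_of_nonneg_right h3 hD0
      _ = _ := mul_comm _ _
  -- all pairs
  have hoff : R.offDiag ⊆ W ∪ W.image Prod.swap := by
    intro w hw
    rw [mem_offDiag] at hw
    obtain ⟨h1, h2, h3⟩ := hw
    rw [mem_union, mem_image]
    rcases lt_or_gt_of_ne h3 with h | h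
    · right
      refine ⟨(w.2, w.1), ?_, rfl⟩
      rw [hW, mem_filter, mem_product]
      exact ⟨⟨h2, h1⟩, h⟩
    · left
      rw [hW, mem_filter, mem_product]
      exact ⟨⟨h1, h2⟩, h⟩
  have h1 := (card_le_card hoff).trans ((card_union_le _ _).trans (Nat.add_le_add_left card_image_le _))
  rw [offDiag_card] at h1
  obtain ⟨s, hs⟩ : ∃ s, s = R.card := ⟨_, rfl⟩
  rw [← hs] at h1 ⊢
  have h2 : s * s ≤ s + 2 * W.card := by omega
  have h3 : (s : ℝ) * s ≤ s + 2 * W.card := by exact_mod_cast h2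
  have hX0 : 0 ≤ D * (((z : ℝ) - y) / q) := le_trans (Nat.cast_nonneg _) hWc
  rcases Nat.eq_zero_or_pos s with h | h
  · rw [h, Nat.cast_zero]
    positivity
  · have h4 : (1 : ℝ) ≤ s := by exact_mod_cast h
    have h5 : (s : ℝ) - 1 ≤ √(2 * (D * (((z : ℝ) - y) / q))) := by
      apply Real.le_sqrt_of_sq_le
      nlinarith
    linarith

/-- the odd prime powers -/
lemma odd_js (n l : ℕ) (hn : IsPrimePow n) (hsq : ¬ IsSquare n) (hl : l.Prime) (hnl : n < l) :
    js (n : ℤ) l = js (n.minFac : ℤ) l := by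
  obtain ⟨p, j, hp, hj, hpj⟩ := hn
  rw [← Nat.prime_iff] at hp
  have hodd : Odd j := by
    rw [← Nat.not_even_iff_odd]
    rintro ⟨i, hi⟩
    apply hsq
    refine ⟨p ^ i, ?_⟩
    rw [← hpj, hi, pow_add]
  have hmin : n.minFac = p := by
    rw [← hpj]
    exact hp.pow_minFac hj.ne'
  rw [hmin]
  have hpn : p ≤ n := by
    rw [← hpj]
    exact Nat.le_self_pow hj.ne' p
  have h1 : js ((p ^ j : ℕ) : ℤ) l = js p l ^ j := by
    have := js_prod (range j) (fun _ => p) l
    rwa [prod_const, prod_const, card_range] at this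
  rw [← hpj, h1]
  obtain ⟨i, hi⟩ := hodd
  have h2 : js p l ^ 2 = 1 := js_sq_one p l hl (fun hd => by
    have := Nat.le_of_dvd hp.pos hd
    omega)
  rw [hi, pow_add, pow_mul, h2, one_pow, one_mul, pow_one]

open Classical in
/-- the coefficients -/
noncomputable def cf (y z q a : ℕ) (f : ℕ → ℝ) (p : ℕ) : ℝ :=
  ∑ n ∈ (AP y z q a).filter (fun n => (IsPrimePow n ∧ ¬ IsSquare n) ∧ n.minFac = p), vonMangoldt n * f n

open Classical in
/-- the decomposition of the sum -/
theorem decomp (N y z q a : ℕ) (hz : z ≤ N) (f : ℕ → ℝ) (l : ℕ) (hl : l.Prime) (hNl : N < l) :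
    ∑ n ∈ AP y z q a, vonMangoldt n * f n * js (n : ℤ) l =
      ∑ n ∈ (AP y z q a).filter (fun n => IsSquare n), vonMangoldt n * f n * js (n : ℤ) l +
      ∑ p ∈ (Icc 1 N).filter Nat.Prime, cf y z q a f p * js (p : ℤ) l := by
  rw [← sum_filter_add_sum_filter_not (AP y z q a) (fun n => IsSquare n)]
  congr 1
  have h1 : ∑ n ∈ (AP y z q a).filter (fun n => ¬ IsSquare n), vonMangoldt n * f n * js (n : ℤ) l =
      ∑ n ∈ (AP y z q a).filter (fun n => IsPrimePow n ∧ ¬ IsSquare n), vonMangoldt n * f n * js (n.minFac : ℤ) l := by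
    symm
    have hsub : (AP y z q a).filter (fun n => IsPrimePow n ∧ ¬ IsSquare n) ⊆
        (AP y z q a).filter (fun n => ¬ IsSquare n) := by
      intro n hn
      rw [mem_filter] at hn ⊢
      exact ⟨hn.1, hn.2.2⟩
    rw [← sum_subset hsub (f := fun n => vonMangoldt n * f n * js (n : ℤ) l)]
    · refine sum_congr rfl fun n hn => ?_
      rw [mem_filter, mem_AP] at hn
      rw [odd_js n l hn.2.1 hn.2.2 hl (by omega)]
    · intro n hn hn2
      rw [mem_filter] at hn
      rw [mem_filter] at hn2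
      have h2 : ¬ IsPrimePow n := fun h => hn2 ⟨hn.1, h, hn.2⟩
      rw [ArithmeticFunction.vonMangoldt_eq_zero_iff.2 h2, zero_mul, zero_mul]
  rw [h1]
  have hmaps : ∀ n ∈ (AP y z q a).filter (fun n => IsPrimePow n ∧ ¬ IsSquare n),
      n.minFac ∈ (Icc 1 N).filter Nat.Prime := by
    intro n hn
    rw [mem_filter, mem_AP] at hn
    have hn1 : n ≠ 1 := hn.2.1.ne_one
    have hp := Nat.minFac_prime hn1
    rw [mem_filter, mem_Icc]
    exact ⟨⟨hp.one_lt.le, (Nat.minFac_le (by omega)).trans (by omega)⟩, hp⟩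
  rw [← sum_fiberwise_of_maps_to hmaps]
  refine sum_congr rfl fun p _ => ?_
  unfold cf
  rw [sum_mul, filter_filter]
  refine sum_congr rfl fun n hn => ?_
  rw [mem_filter] at hn
  rw [hn.2.2]

open Classical in
/-- the size of the coefficients -/
theorem cf_sq (N y z q a : ℕ) (hN : 1 ≤ N) (hyz : y ≤ z) (hz : z ≤ N) (hq : 1 ≤ q) (f : ℕ → ℝ) (hf : ∀ n, |f n| ≤ 1) :
    ∑ p ∈ (Icc 1 N).filter Nat.Prime, cf y z q a f p ^ 2 ≤
      Real.log N ^ 2 * (Nat.log 2 N + 1) * (((z : ℝ) - y) / q + 1) := by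
  have hlog0 : 0 ≤ Real.log N := Real.log_nonneg (by exact_mod_cast hN)
  obtain ⟨G, hG⟩ : ∃ G : ℕ → Finset ℕ, G = fun p => (AP y z q a).filter
    (fun n => (IsPrimePow n ∧ ¬ IsSquare n) ∧ n.minFac = p) := ⟨_, rfl⟩
  have h1 : ∀ p ∈ (Icc 1 N).filter Nat.Prime, cf y z q a f p ^ 2 ≤
      Real.log N ^ 2 * (Nat.log 2 N + 1) * (G p).card := by
    intro p hp
    have hpp : p.Prime := (mem_filter.1 hp).2
    have h2 : |cf y z q a f p| ≤ Real.log N * (G p).card := by
      unfold cf
      refine (abs_sum_le_sum_abs _ _).trans ?_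
      rw [hG, mul_comm, ← nsmul_eq_mul]
      refine sum_le_card_nsmul _ _ _ fun n hn => ?_
      rw [mem_filter, mem_AP] at hn
      rw [abs_mul, abs_of_nonneg ArithmeticFunction.vonMangoldt_nonneg]
      have h3 : vonMangoldt n ≤ Real.log N := ArithmeticFunction.vonMangoldt_le_log.trans
        (Real.log_le_log (by exact_mod_cast (by omega : 0 < n)) (by exact_mod_cast (by omega : n ≤ N)))
      calc vonMangoldt n * |f n| ≤ Real.log N * 1 := mul_le_mul h3 (hf n) (abs_nonneg _) hlog0
        _ = _ := mul_one _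
    have h3 : (G p).card ≤ Nat.log 2 N + 1 := by
      have h4 : G p ⊆ (range (Nat.log 2 N + 1)).image (fun j => p ^ j) := by
        intro n hn
        rw [hG] at hn
        simp only at hn
        rw [mem_filter, mem_AP] at hn
        obtain ⟨⟨⟨h5, h6⟩, _⟩, ⟨⟨r, j, hr, hj, hrj⟩, _⟩, h7⟩ := hn
        rw [← Nat.prime_iff] at hr
        have h8 : r = p := by
          rw [← h7, ← hrj, hr.pow_minFac hj.ne']
        rw [mem_image]
        refine ⟨j, ?_, by rw [← h8, hrj]⟩
        rw [mem_range, Nat.lt_succ_iff]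
        apply Nat.le_log_of_pow_le (by norm_num)
        calc 2 ^ j ≤ r ^ j := Nat.pow_le_pow_left hr.two_le j
          _ = n := hrj
          _ ≤ N := by omega
      have h5 := (card_le_card h4).trans card_image_le
      rwa [card_range] at h5
    have h3r : ((G p).card : ℝ) ≤ Nat.log 2 N + 1 := by exact_mod_cast h3
    calc cf y z q a f p ^ 2 = |cf y z q a f p| ^ 2 := (sq_abs _).symm
      _ ≤ (Real.log N * (G p).card) ^ 2 := pow_le_pow_left₀ (abs_nonneg _) h2 2
      _ = Real.log N ^ 2 * ((G p).card : ℝ) * (G p).card := by ring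
      _ ≤ Real.log N ^ 2 * (Nat.log 2 N + 1) * (G p).card := by gcongr
  refine (sum_le_sum h1).trans ?_
  rw [← mul_sum]
  refine mul_le_mul_of_nonneg_left ?_ (by positivity)
  have h2 : ∑ p ∈ (Icc 1 N).filter Nat.Prime, (G p).card ≤ (AP y z q a).card := by
    rw [← card_biUnion]
    · apply card_le_card
      rw [biUnion_subset]
      intro p _
      rw [hG]
      exact filter_subset _ _
    · intro p _ p' _ hne
      rw [hG, Function.onFun, disjoint_left]
      intro n h3 h4
      rw [mem_filter] at h3 h4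
      exact hne (h3.2.2.symm.trans h4.2.2)
  calc ∑ p ∈ (Icc 1 N).filter Nat.Prime, ((G p).card : ℝ) ≤ ((AP y z q a).card : ℝ) := by exact_mod_cast h2
    _ ≤ _ := AP_card y z q a hyz hq

end Pool.Agent.L0h41.MQ
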