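import Pool.Agent.L0h41.MQ.B
import Pool.Agent.TH464.PW.Input

set_option autoImplicit false

/-!
# Prime powers in arithmetic progressions twisted by Legendre symbols: the exceptional set
-/

namespace Pool.Agent.L0h41.MQ

open Finset Filter
open ArithmeticFunction (vonMangoldt)
open Pool.Agent.H306R2.RZ Pool.Agent.L0h54.GC
open Pool.Agent.TH464.PW (logpow_rpow)

/-- the odd part of the sum -/
noncomputable def odd (N y z q a : ℕ) (f : ℕ → ℝ) (l : ℕ) : ℝ :=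
  ∑ p ∈ (Icc 1 N).filter Nat.Prime, cf y z q a f p * js (p : ℤ) l

/-- the ratio -/
noncomputable def ww (y z q : ℕ) : ℝ := ((z : ℝ) - y) / q + 1

lemma one_le_ww {y z q : ℕ} (hyz : y ≤ z) : 1 ≤ ww y z q := by
  unfold ww
  have h1 : (y : ℝ) ≤ z := by exact_mod_cast hyz
  have : 0 ≤ ((z : ℝ) - y) / q := div_nonneg (by linarith) (Nat.cast_nonneg _)
  linarith

lemma natlog_le (N : ℕ) (hN : 3 ≤ N) : (Nat.log 2 N : ℝ) + 1 ≤ 3 * Real.log N := by
  have hN0 : (0 : ℝ) < N := by exact_mod_cast (by omega : 0 < N)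
  have h1 : (Nat.log 2 N : ℝ) * Real.log 2 ≤ Real.log N := by
    rw [← Real.log_pow]
    apply Real.log_le_log (by positivity)
    exact_mod_cast Nat.pow_log_le_self 2 (by omega)
  have h2 := Real.log_two_gt_d9
  have h3 : 1 ≤ Real.log N := by
    rw [Real.le_log_iff_exp_le hN0]
    have h4 := Real.exp_one_lt_d9
    have h5 : (3 : ℝ) ≤ N := by exact_mod_cast hN
    linarith
  have h4 : (0 : ℝ) ≤ Nat.log 2 N := Nat.cast_nonneg _
  nlinarith

lemma AP_mod (y z q a : ℕ) : AP y z q a = AP y z q (a % q) := by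
  unfold AP
  apply filter_congr
  intro n _
  have h : a % q ≡ a [MOD q] := Nat.mod_modEq a q
  exact ⟨fun h1 => h1.trans h.symm, fun h1 => h1.trans h⟩

open Classical in
/-- the exceptional primes for given parameters -/
noncomputable def bad (Q N : ℕ) (ε : ℝ) (f : ℕ → ℝ) (w : (ℕ × ℕ) × (ℕ × ℕ)) : Finset ℕ :=
  ((Ioc N Q).filter (fun l => l.Prime ∧ l ≠ 2)).filter (fun l =>
    w.1.1 ≤ w.1.2 ∧ (N : ℝ) ^ (ε / 2) * √(ww w.1.1 w.1.2 w.2.1) < |odd N w.1.1 w.1.2 w.2.1 w.2.2 f l|)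

/-- the parameters -/
def Pm (N : ℕ) : Finset ((ℕ × ℕ) × (ℕ × ℕ)) := (range (N + 1) ×ˢ range (N + 1)) ×ˢ (Icc 1 N ×ˢ range N)

theorem bad_card (Q N k : ℕ) (ε : ℝ) (f : ℕ → ℝ) (hf : ∀ n, |f n| ≤ 1) (w : (ℕ × ℕ) × (ℕ × ℕ)) (hw : w ∈ Pm N)
    (B : ℝ) (hB : 0 ≤ B) (hLS : LSB (N ^ k) Q B) (hN : 1 ≤ N)
    (hlog : Real.log N ^ 2 * (Nat.log 2 N + 1) ≤ (N : ℝ) ^ (ε / 2)) :
    ((bad Q N ε f w).card : ℝ) ≤ B * (4 * (2 * k).factorial) * ((N : ℝ) ^ (-(ε / 2))) ^ k := by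
  classical
  obtain ⟨⟨y, z⟩, ⟨q, a⟩⟩ := w
  unfold Pm at hw
  simp only [mem_product, mem_range, mem_Icc] at hw
  obtain ⟨⟨hy, hz⟩, ⟨hq1, hqN⟩, ha⟩ := hw
  have hN0 : (0 : ℝ) < N := by exact_mod_cast hN
  by_cases hyz : y ≤ z
  swap
  · have h1 : bad Q N ε f ((y, z), (q, a)) = ∅ := by
      unfold bad
      rw [filter_eq_empty_iff]
      intro l _ h
      exact hyz h.1
    rw [h1, card_empty, Nat.cast_zero]
    positivity
  have hww := one_le_ww (q := q) hyz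
  obtain ⟨W, hW⟩ : ∃ W, W = ww y z q := ⟨_, rfl⟩
  rw [← hW] at hww
  have hW0 : 0 < W := by linarith
  obtain ⟨T, hT⟩ : ∃ T, T = (N : ℝ) ^ (ε / 2) * √W := ⟨_, rfl⟩
  have hT0 : 0 < T := by rw [hT]; positivity
  have hT2 : T ^ 2 = (N : ℝ) ^ (ε / 2) * ((N : ℝ) ^ (ε / 2) * W) := by
    rw [hT, mul_pow, Real.sq_sqrt hW0.le]
    ring
  have hU := cf_sq N y z q a hN hyz (by omega) hq1 f hf
  have hU2 : ∑ p ∈ (Icc 1 N).filter Nat.Prime, cf y z q a f p ^ 2 ≤ (N : ℝ) ^ (ε / 2) * W := by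
    refine hU.trans ?_
    rw [hW]
    unfold ww
    apply mul_le_mul_of_nonneg_right hlog
    rw [hW] at hW0
    unfold ww at hW0
    exact hW0.le
  have h1 := mom ((Icc 1 N).filter Nat.Prime) N k (N ^ k) Q (fun p hp => by
      rw [mem_filter, mem_Icc] at hp
      exact ⟨hp.2, hp.1.2⟩) (cf y z q a f) ((N : ℝ) ^ (ε / 2) * W) B (by positivity) hU2 hB hLS le_rfl
    (bad Q N ε f ((y, z), (q, a))) (by
      intro l hl
      unfold bad at hl
      rw [mem_filter, mem_filter, mem_Ioc] at hl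
      exact ⟨hl.1.2.1, hl.1.2.2, hl.1.1.1, hl.1.1.2⟩)
  have h2 : ((bad Q N ε f ((y, z), (q, a))).card : ℝ) * T ^ (2 * k) ≤
      ∑ l ∈ bad Q N ε f ((y, z), (q, a)), (∑ n ∈ (Icc 1 N).filter Nat.Prime, cf y z q a f n * js (n : ℤ) l) ^ (2 * k) := by
    rw [← nsmul_eq_mul]
    refine card_nsmul_le_sum _ _ _ fun l hl => ?_
    unfold bad at hl
    rw [mem_filter] at hl
    have h3 := hl.2.2
    simp only at h3
    rw [← hW, ← hT] at h3
    unfold odd at h3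
    calc T ^ (2 * k) ≤ |∑ n ∈ (Icc 1 N).filter Nat.Prime, cf y z q a f n * js (n : ℤ) l| ^ (2 * k) :=
          pow_le_pow_left₀ hT0.le h3.le _
      _ = _ := (even_two_mul k).pow_abs _
  have h3 : 0 < T ^ (2 * k) := by positivity
  have h4 : ((bad Q N ε f ((y, z), (q, a))).card : ℝ) ≤
      B * (4 * (2 * k).factorial * ((N : ℝ) ^ (ε / 2) * W) ^ k) / T ^ (2 * k) := by
    rw [le_div_iff₀ h3]
    exact h2.trans h1
  refine h4.trans (le_of_eq ?_)
  rw [pow_mul, hT2, mul_pow, Real.rpow_neg hN0.le, inv_pow]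
  have h5 : ((N : ℝ) ^ (ε / 2) * W) ^ k ≠ 0 := by positivity
  have h6 : ((N : ℝ) ^ (ε / 2)) ^ k ≠ 0 := by positivity
  field_simp
  ring

lemma Pm_card (N : ℕ) (hN : 1 ≤ N) : ((Pm N).card : ℝ) ≤ 4 * (N : ℝ) ^ 4 := by
  unfold Pm
  rw [card_product, card_product, card_product, card_range, card_range, Nat.card_Icc, Nat.add_sub_cancel]
  push_cast
  have hN1 : (1 : ℝ) ≤ N := by exact_mod_cast hN
  have h1 : ((N : ℝ) + 1) * (N + 1) ≤ 4 * (N : ℝ) ^ 2 := by nlinarith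
  calc ((N : ℝ) + 1) * (N + 1) * (N * N) ≤ 4 * (N : ℝ) ^ 2 * (N * N) := by gcongr
    _ = _ := by ring

lemma inv_sq_tail' (z N : ℕ) (hz : 1 ≤ z) : ∑ n ∈ Ioc z N, (1 : ℝ) / (n : ℝ) ^ 2 ≤ 1 / z := by
  rcases le_total N z with h | h
  · rw [Ioc_eq_empty (by omega), sum_empty]
    positivity
  · have h1 : ∀ M : ℕ, z ≤ M → ∑ n ∈ Ioc z M, (1 : ℝ) / (n : ℝ) ^ 2 ≤ 1 / z - 1 / M := by
      intro M hM
      induction M, hM using Nat.le_induction with
      | base => simp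
      | succ M hM ih =>
        rw [Finset.sum_Ioc_succ_top (by omega)]
        have hM0 : (0 : ℝ) < M := by exact_mod_cast (by omega : 0 < M)
        have h2 : (1 : ℝ) / ((M + 1 : ℕ) : ℝ) ^ 2 ≤ 1 / M - 1 / ((M + 1 : ℕ) : ℝ) := by
          push_cast
          rw [div_sub_div _ _ hM0.ne' (by positivity), div_le_div_iff₀ (by positivity) (by positivity)]
          nlinarith
        linarith
    have h3 := h1 N h
    have h4 : (0 : ℝ) ≤ 1 / N := by positivity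
    linarith

/-- the large values of `N` -/
def Ev (ε C1 : ℝ) (N : ℕ) : Prop :=
  Real.log N ^ 2 * (Nat.log 2 N + 1) ≤ (N : ℝ) ^ (ε / 2) ∧
  Real.log N * (1 + √(2 * (C1 * (N : ℝ) ^ (ε / 4)))) ≤ (N : ℝ) ^ (ε / 2) ∧
  2 ≤ (N : ℝ) ^ (ε / 2) ∧ Real.log N ≤ (N : ℝ) ^ ε

lemma ev (ε C1 : ℝ) (hε : 0 < ε) (hC1 : 0 < C1) : ∀ᶠ N : ℕ in atTop, Ev ε C1 N := by
  have e1 := logpow_rpow 3 3 (ε / 2) (by norm_num) (by positivity)
  have e2 := logpow_rpow 1 (1 + √(2 * C1)) (ε / 4) (by positivity) (by positivity)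
  have e3 := logpow_rpow 1 1 ε (by norm_num) hε
  have tl : Tendsto (fun X : ℕ => (X : ℝ) ^ (ε / 2)) atTop atTop :=
    (tendsto_rpow_atTop (by positivity)).comp tendsto_natCast_atTop_atTop
  have e4 := tl.eventually_ge_atTop 2
  filter_upwards [e1, e2, e3, e4, eventually_ge_atTop 3] with N h1 h2 h3 h4 h5
  have hN1 : (1 : ℝ) ≤ N := by exact_mod_cast (by omega : 1 ≤ N)
  have hN0 : (0 : ℝ) < N := by linarith
  have hlog0 : 0 ≤ Real.log N := Real.log_nonneg hN1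
  refine ⟨?_, ?_, h4, by linarith⟩
  · refine le_trans ?_ h1
    have := natlog_le N h5
    nlinarith [sq_nonneg (Real.log N)]
  · rw [pow_one] at h2
    have h6 : √(2 * (C1 * (N : ℝ) ^ (ε / 4))) = √(2 * C1) * (N : ℝ) ^ (ε / 8) := by
      rw [← mul_assoc, Real.sqrt_mul (by positivity)]
      congr 1
      rw [Real.sqrt_eq_rpow, ← Real.rpow_mul hN0.le]
      congr 1
      ring
    rw [h6]
    have h7 : 1 ≤ (N : ℝ) ^ (ε / 8) := Real.one_le_rpow hN1 (by positivity)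
    have h8 : (N : ℝ) ^ (ε / 4) * (N : ℝ) ^ (ε / 8) ≤ (N : ℝ) ^ (ε / 2) := by
      rw [← Real.rpow_add hN0]
      exact Real.rpow_le_rpow_of_exponent_le hN1 (by linarith)
    calc Real.log N * (1 + √(2 * C1) * (N : ℝ) ^ (ε / 8)) ≤
        Real.log N * ((1 + √(2 * C1)) * (N : ℝ) ^ (ε / 8)) := by
          apply mul_le_mul_of_nonneg_left _ hlog0
          nlinarith [Real.sqrt_nonneg (2 * C1)]
      _ = ((1 + √(2 * C1)) * Real.log N) * (N : ℝ) ^ (ε / 8) := by ring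
      _ ≤ (N : ℝ) ^ (ε / 4) * (N : ℝ) ^ (ε / 8) := mul_le_mul_of_nonneg_right h2 (by positivity)
      _ ≤ _ := h8

/-- the bound for a prime which is not exceptional -/
theorem good_bound (Q N : ℕ) (ε C1 : ℝ) (hε : 0 < ε) (hC1 : 0 < C1)
    (hdiv : ∀ n : ℕ, 1 ≤ n → (n.divisors.card : ℝ) ≤ C1 * (n : ℝ) ^ (ε / 4)) (hN : 1 ≤ N) (hev : Ev ε C1 N)
    (f : ℕ → ℝ) (hf : ∀ n, |f n| ≤ 1) (l : ℕ) (hl : l.Prime) (hl2 : l ≠ 2) (hNl : N < l) (hlQ : l ≤ Q)
    (hbad : ∀ w ∈ Pm N, l ∉ bad Q N ε f w) (y z q a : ℕ) (hyz : y ≤ z) (hz : z ≤ N) (hq : 1 ≤ q) :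
    |∑ n ∈ AP y z q a, vonMangoldt n * f n * js (n : ℤ) l| ≤ (N : ℝ) ^ ε * √(ww y z q) := by
  classical
  obtain ⟨_, ev2, ev3, ev4⟩ := hev
  have hN1 : (1 : ℝ) ≤ N := by exact_mod_cast hN
  have hN0 : (0 : ℝ) < N := by linarith
  have hlog0 : 0 ≤ Real.log N := Real.log_nonneg hN1
  have hww := one_le_ww (q := q) hyz
  obtain ⟨W, hW⟩ : ∃ W, W = ww y z q := ⟨_, rfl⟩
  rw [← hW] at hww ⊢
  have hW0 : 0 < W := by linarith
  have hsW : 1 ≤ √W := Real.one_le_sqrt.2 hww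
  have hterm : ∀ b, ∀ n ∈ AP y z q b, |vonMangoldt n * f n * js (n : ℤ) l| ≤ Real.log N := by
    intro b n hn
    rw [mem_AP] at hn
    rw [abs_mul, abs_mul, abs_of_nonneg ArithmeticFunction.vonMangoldt_nonneg]
    have h3 : vonMangoldt n ≤ Real.log N := ArithmeticFunction.vonMangoldt_le_log.trans
      (Real.log_le_log (by exact_mod_cast (by omega : 0 < n)) (by exact_mod_cast (by omega : n ≤ N)))
    have h4 : |js (n : ℤ) l| ≤ 1 := by
      unfold js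
      rcases jacobiSym.trichotomy (n : ℤ) l with h | h | h <;> rw [h] <;> simp
    calc vonMangoldt n * |f n| * |js (n : ℤ) l| ≤ Real.log N * 1 * 1 := by
          gcongr
          exact hf n
      _ = _ := by ring
  by_cases hqN : q ≤ N
  swap
  · -- at most one term
    have h1 : (AP y z q a).card ≤ 1 := by
      have h2 := AP_card y z q a hyz hq
      have h3 : ((z : ℝ) - y) / q < 1 := by
        rw [div_lt_one (by exact_mod_cast (by omega : 0 < q))]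
        have : (z : ℝ) ≤ N := by exact_mod_cast hz
        have : (N : ℝ) < q := by exact_mod_cast (by omega : N < q)
        have : (0 : ℝ) ≤ y := Nat.cast_nonneg _
        linarith
      have h4 : ((AP y z q a).card : ℝ) < 2 := by linarith
      have h5 : (AP y z q a).card < 2 := by exact_mod_cast h4
      omega
    calc |∑ n ∈ AP y z q a, vonMangoldt n * f n * js (n : ℤ) l| ≤
        ∑ n ∈ AP y z q a, |vonMangoldt n * f n * js (n : ℤ) l| := abs_sum_le_sum_abs _ _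
      _ ≤ (AP y z q a).card • Real.log N := sum_le_card_nsmul _ _ _ (hterm a)
      _ = (AP y z q a).card * Real.log N := nsmul_eq_mul _ _
      _ ≤ 1 * Real.log N := by
          apply mul_le_mul_of_nonneg_right _ hlog0
          exact_mod_cast h1
      _ ≤ (N : ℝ) ^ ε * 1 := by linarith
      _ ≤ _ := mul_le_mul_of_nonneg_left hsW (by positivity)
  rw [AP_mod]
  obtain ⟨b, hb⟩ : ∃ b, b = a % q := ⟨_, rfl⟩
  rw [← hb]
  have hbq : b < q := by
    rw [hb]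
    exact Nat.mod_lt _ (by omega)
  rw [decomp N y z q b hz f l hl hNl]
  refine (abs_add_le _ _).trans ?_
  -- the odd part
  have h1 : |∑ p ∈ (Icc 1 N).filter Nat.Prime, cf y z q b f p * js (p : ℤ) l| ≤ (N : ℝ) ^ (ε / 2) * √W := by
    have h2 := hbad ((y, z), (q, b)) (by
      unfold Pm
      simp only [mem_product, mem_range, mem_Icc]
      exact ⟨⟨by omega, by omega⟩, ⟨hq, hqN⟩, by omega⟩)
    unfold bad at h2
    rw [mem_filter, not_and] at h2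
    have h3 := h2 (by
      rw [mem_filter, mem_Ioc]
      exact ⟨⟨hNl, hlQ⟩, hl, hl2⟩)
    rw [not_and] at h3
    have h4 := h3 hyz
    push Not at h4
    simp only at h4
    rw [← hW] at h4
    exact h4
  -- the squares
  have h2 : |∑ n ∈ (AP y z q b).filter (fun n => IsSquare n), vonMangoldt n * f n * js (n : ℤ) l| ≤
      (N : ℝ) ^ (ε / 2) * √W := by
    have h3 := sq_AP y z q b hyz (C1 * (N : ℝ) ^ (ε / 4)) (by positivity) (by
      intro d hd
      rw [mem_Ioc] at hd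
      refine (hdiv d (by omega)).trans ?_
      apply mul_le_mul_of_nonneg_left _ hC1.le
      apply Real.rpow_le_rpow (Nat.cast_nonneg _) _ (by positivity)
      exact_mod_cast (by omega : d ≤ N))
    have h4 : ((z : ℝ) - y) / q ≤ W := by
      rw [hW]
      unfold ww
      linarith
    have h5 : √(2 * (C1 * (N : ℝ) ^ (ε / 4) * (((z : ℝ) - y) / q))) ≤ √(2 * (C1 * (N : ℝ) ^ (ε / 4))) * √W := by
      rw [← Real.sqrt_mul (by positivity)]
      apply Real.sqrt_le_sqrt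
      calc 2 * (C1 * (N : ℝ) ^ (ε / 4) * (((z : ℝ) - y) / q)) ≤ 2 * (C1 * (N : ℝ) ^ (ε / 4) * W) := by gcongr
        _ = _ := by ring
    have h6 : (((AP y z q b).filter (fun n => IsSquare n)).card : ℝ) ≤ (1 + √(2 * (C1 * (N : ℝ) ^ (ε / 4)))) * √W := by
      rw [add_mul, one_mul]
      linarith
    calc |∑ n ∈ (AP y z q b).filter (fun n => IsSquare n), vonMangoldt n * f n * js (n : ℤ) l| ≤
        ∑ n ∈ (AP y z q b).filter (fun n => IsSquare n), |vonMangoldt n * f n * js (n : ℤ) l| := abs_sum_le_sum_abs _ _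
      _ ≤ ((AP y z q b).filter (fun n => IsSquare n)).card • Real.log N :=
          sum_le_card_nsmul _ _ _ fun n hn => hterm b n (mem_filter.1 hn).1
      _ = ((AP y z q b).filter (fun n => IsSquare n)).card * Real.log N := nsmul_eq_mul _ _
      _ ≤ ((1 + √(2 * (C1 * (N : ℝ) ^ (ε / 4)))) * √W) * Real.log N := mul_le_mul_of_nonneg_right h6 hlog0
      _ = (Real.log N * (1 + √(2 * (C1 * (N : ℝ) ^ (ε / 4))))) * √W := by ring
      _ ≤ (N : ℝ) ^ (ε / 2) * √W := mul_le_mul_of_nonneg_right ev2 (by positivity)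
  have h3 : (N : ℝ) ^ (ε / 2) * √W + (N : ℝ) ^ (ε / 2) * √W ≤ (N : ℝ) ^ ε * √W := by
    have h4 : (N : ℝ) ^ ε = (N : ℝ) ^ (ε / 2) * (N : ℝ) ^ (ε / 2) := by
      rw [← Real.rpow_add hN0]
      congr 1
      ring
    have h5 : 2 * (N : ℝ) ^ (ε / 2) ≤ (N : ℝ) ^ ε := by
      rw [h4]
      exact mul_le_mul_of_nonneg_right ev3 (by positivity)
    calc (N : ℝ) ^ (ε / 2) * √W + (N : ℝ) ^ (ε / 2) * √W = (2 * (N : ℝ) ^ (ε / 2)) * √W := by ring
      _ ≤ _ := mul_le_mul_of_nonneg_right h5 (by positivity)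
  linarith

/-- **the main theorem** -/
theorem main (ε : ℝ) (hε : 0 < ε) : ∃ k : ℕ, 2 ≤ k ∧ ∀ B : ℝ, (k : ℝ) ≤ B → ∃ c : ℝ, 0 < c ∧ ∃ Q₀ : ℕ,
    ∀ Q : ℕ, Q₀ ≤ Q → ∀ f : ℕ → ℝ, (∀ n, |f n| ≤ 1) → ∃ E : Finset ℕ, (E.card : ℝ) ≤ (Q : ℝ) ^ (1 - c) ∧
      ∀ l : ℕ, l.Prime → l ≤ Q → l ∉ E → ∀ N : ℕ, (Q : ℝ) ^ (1 / B) ≤ N → (N : ℝ) ≤ (Q : ℝ) ^ (1 / (k : ℝ)) →
        N < l ∧ ∀ y z q a : ℕ, y ≤ z → z ≤ N → 1 ≤ q →
          |∑ n ∈ AP y z q a, vonMangoldt n * f n * js (n : ℤ) l| ≤ (N : ℝ) ^ ε * √(ww y z q) := by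
  classical
  obtain ⟨k0, hk0⟩ := exists_nat_ge (12 / ε)
  obtain ⟨k, hk⟩ : ∃ k, k = k0 + 2 := ⟨_, rfl⟩
  refine ⟨k, by omega, ?_⟩
  intro B hB
  have hk2 : (2 : ℝ) ≤ k := by exact_mod_cast (by omega : 2 ≤ k)
  have hkε : 6 ≤ ε / 2 * k := by
    have h1 : 12 / ε ≤ k := by
      rw [hk]
      push_cast
      linarith
    rw [div_le_iff₀ hε] at h1
    linarith
  have hB0 : 0 < B := by linarith
  obtain ⟨C1, hC1, hdiv⟩ := Pool.Agent.Helper112.divisor_bound (ε / 4) (by positivity)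
  obtain ⟨C, hC, hLS⟩ := Pool.Agent.H423R2.RZL.HBLSn.HBLS (1 / (4 * B)) (by positivity)
  obtain ⟨N1, hN1⟩ := eventually_atTop.1 (ev ε C1 hε hC1)
  obtain ⟨K, hK⟩ : ∃ K : ℝ, K = 64 * (2 * k).factorial * C + 2 := ⟨_, rfl⟩
  have hK0 : 0 < K := by rw [hK]; positivity
  have t1 : Tendsto (fun X : ℕ => (X : ℝ) ^ (1 / (4 * B))) atTop atTop :=
    (tendsto_rpow_atTop (by positivity)).comp tendsto_natCast_atTop_atTop
  have t2 : Tendsto (fun X : ℕ => (X : ℝ) ^ (1 / B)) atTop atTop :=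
    (tendsto_rpow_atTop (by positivity)).comp tendsto_natCast_atTop_atTop
  obtain ⟨Q1, hQ1⟩ := eventually_atTop.1 ((t1.eventually_ge_atTop K).and ((t2.eventually_ge_atTop ((N1 : ℝ) + 2)).and
    (eventually_ge_atTop 1)))
  refine ⟨1 / (4 * B), by positivity, Q1, ?_⟩
  intro Q hQ f hf
  obtain ⟨q1, q2, q3⟩ := hQ1 Q hQ
  have hQr : (1 : ℝ) ≤ Q := by exact_mod_cast q3
  have hQ0 : (0 : ℝ) < Q := by linarith
  obtain ⟨Na, hNa⟩ : ∃ Na, Na = ⌈(Q : ℝ) ^ (1 / B)⌉₊ := ⟨_, rfl⟩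
  obtain ⟨Nb, hNb⟩ : ∃ Nb, Nb = ⌊(Q : ℝ) ^ (1 / (k : ℝ))⌋₊ := ⟨_, rfl⟩
  have hNa1 : (Q : ℝ) ^ (1 / B) ≤ Na := by rw [hNa]; exact Nat.le_ceil _
  have hNa2 : N1 + 2 ≤ Na := by
    have : ((N1 + 2 : ℕ) : ℝ) ≤ Na := by
      push_cast
      linarith
    exact_mod_cast this
  have hNb1 : (Nb : ℝ) ≤ (Q : ℝ) ^ (1 / (k : ℝ)) := by rw [hNb]; exact Nat.floor_le (by positivity)
  -- the power of N
  have hpow : ∀ N : ℕ, N ≤ Nb → ((N ^ k : ℕ) : ℝ) ≤ Q := by
    intro N hN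
    push_cast
    have h1 : (N : ℝ) ≤ (Q : ℝ) ^ (1 / (k : ℝ)) := le_trans (by exact_mod_cast hN) hNb1
    calc (N : ℝ) ^ k ≤ ((Q : ℝ) ^ (1 / (k : ℝ))) ^ k := pow_le_pow_left₀ (Nat.cast_nonneg _) h1 k
      _ = Q := by
          rw [← Real.rpow_natCast, ← Real.rpow_mul hQ0.le]
          have : 1 / (k : ℝ) * k = 1 := by field_simp
          rw [this, Real.rpow_one]
  obtain ⟨E, hE⟩ : ∃ E : Finset ℕ, E = (Icc 1 Nb ∪ {2}) ∪ (Ioc (Na - 1) Nb).biUnion (fun N =>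
    (Pm N).biUnion (fun w => bad Q N ε f w)) := ⟨_, rfl⟩
  refine ⟨E, ?_, ?_⟩
  · -- the number of the exceptional primes
    have hone : ∀ N ∈ Ioc (Na - 1) Nb, (((Pm N).biUnion (fun w => bad Q N ε f w)).card : ℝ) ≤
        32 * (2 * k).factorial * C * (Q : ℝ) ^ (1 + 1 / (2 * B)) * (1 / (N : ℝ) ^ 2) := by
      intro N hN
      rw [mem_Ioc] at hN
      have hN1' : 1 ≤ N := by omega
      have hNr : (1 : ℝ) ≤ N := by exact_mod_cast hN1'
      have hN0 : (0 : ℝ) < N := by linarith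
      obtain ⟨ev1, _, _, _⟩ := hN1 N (by omega)
      have hM1 : 1 ≤ N ^ k := Nat.one_le_pow _ _ hN1'
      obtain ⟨Bd, hBd⟩ : ∃ Bd, Bd = C * (((N ^ k : ℕ) : ℝ) * Q) ^ (1 / (4 * B)) * (((N ^ k : ℕ) : ℝ) + Q) := ⟨_, rfl⟩
      have hL := hLS (N ^ k) Q hM1 q3
      rw [← hBd] at hL
      have hBd0 : 0 ≤ Bd := by rw [hBd]; positivity
      have hBd1 : Bd ≤ 2 * C * (Q : ℝ) ^ (1 + 1 / (2 * B)) := by
        have h1 := hpow N hN.2
        have h2 : (((N ^ k : ℕ) : ℝ) * Q) ^ (1 / (4 * B)) ≤ (Q : ℝ) ^ (1 / (2 * B)) := by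
          calc (((N ^ k : ℕ) : ℝ) * Q) ^ (1 / (4 * B)) ≤ ((Q : ℝ) * Q) ^ (1 / (4 * B)) := by
                apply Real.rpow_le_rpow (by positivity) _ (by positivity)
                exact mul_le_mul_of_nonneg_right h1 hQ0.le
            _ = (Q : ℝ) ^ (1 / (2 * B)) := by
                rw [← sq, ← Real.rpow_natCast, ← Real.rpow_mul hQ0.le]
                congr 1
                push_cast
                field_simp
                norm_num
        rw [hBd]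
        calc C * (((N ^ k : ℕ) : ℝ) * Q) ^ (1 / (4 * B)) * (((N ^ k : ℕ) : ℝ) + Q) ≤
            C * (Q : ℝ) ^ (1 / (2 * B)) * (Q + Q) := by gcongr
          _ = 2 * C * (Q : ℝ) ^ (1 + 1 / (2 * B)) := by
              rw [Real.rpow_add hQ0, Real.rpow_one]
              ring
      have h1 : (((Pm N).biUnion (fun w => bad Q N ε f w)).card : ℝ) ≤
          ∑ w ∈ Pm N, Bd * (4 * (2 * k).factorial) * ((N : ℝ) ^ (-(ε / 2))) ^ k := by
        have h2 : (((Pm N).biUnion (fun w => bad Q N ε f w)).card : ℝ) ≤ ∑ w ∈ Pm N, ((bad Q N ε f w).card : ℝ) := by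
          exact_mod_cast card_biUnion_le
        exact h2.trans (sum_le_sum fun w hw => bad_card Q N k ε f hf w hw Bd hBd0 hL hN1' ev1)
      rw [sum_const, nsmul_eq_mul] at h1
      have h2 : ((N : ℝ) ^ (-(ε / 2))) ^ k ≤ 1 / (N : ℝ) ^ 6 := by
        rw [← Real.rpow_natCast, ← Real.rpow_mul hN0.le, one_div, ← Real.rpow_natCast (N : ℝ) 6, ← Real.rpow_neg hN0.le]
        apply Real.rpow_le_rpow_of_exponent_le hNr
        push_cast
        linarith
      calc (((Pm N).biUnion (fun w => bad Q N ε f w)).card : ℝ) ≤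
          (Pm N).card * (Bd * (4 * (2 * k).factorial) * ((N : ℝ) ^ (-(ε / 2))) ^ k) := h1
        _ ≤ (4 * (N : ℝ) ^ 4) * ((2 * C * (Q : ℝ) ^ (1 + 1 / (2 * B))) * (4 * (2 * k).factorial) * (1 / (N : ℝ) ^ 6)) := by
            have := Pm_card N hN1'
            gcongr
        _ = 32 * (2 * k).factorial * C * (Q : ℝ) ^ (1 + 1 / (2 * B)) * (1 / (N : ℝ) ^ 2) := by
            field_simp
            ring
    have hNa3 : (1 : ℝ) ≤ Na := by exact_mod_cast (by omega : 1 ≤ Na)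
    have hsum : (((Ioc (Na - 1) Nb).biUnion (fun N => (Pm N).biUnion (fun w => bad Q N ε f w))).card : ℝ) ≤
        64 * (2 * k).factorial * C * (Q : ℝ) ^ (1 - 1 / (2 * B)) := by
      have h1 : (((Ioc (Na - 1) Nb).biUnion (fun N => (Pm N).biUnion (fun w => bad Q N ε f w))).card : ℝ) ≤
          ∑ N ∈ Ioc (Na - 1) Nb, (((Pm N).biUnion (fun w => bad Q N ε f w)).card : ℝ) := by
        exact_mod_cast card_biUnion_le
      refine h1.trans ((sum_le_sum hone).trans ?_)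
      rw [← mul_sum]
      have h2 := inv_sq_tail' (Na - 1) Nb (by omega)
      have h3 : (1 : ℝ) / ((Na - 1 : ℕ) : ℝ) ≤ 2 * (Q : ℝ) ^ (-(1 / B)) := by
        rw [Real.rpow_neg hQ0.le, ← div_eq_mul_inv, div_le_div_iff₀ (by exact_mod_cast (by omega : 0 < Na - 1)) (by positivity)]
        rw [Nat.cast_sub (by omega), Nat.cast_one]
        have : (2 : ℝ) ≤ Na := by exact_mod_cast (by omega : 2 ≤ Na)
        linarith
      calc 32 * (2 * k).factorial * C * (Q : ℝ) ^ (1 + 1 / (2 * B)) * ∑ N ∈ Ioc (Na - 1) Nb, 1 / (N : ℝ) ^ 2 ≤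
          32 * (2 * k).factorial * C * (Q : ℝ) ^ (1 + 1 / (2 * B)) * (2 * (Q : ℝ) ^ (-(1 / B))) := by
            apply mul_le_mul_of_nonneg_left (h2.trans h3) (by positivity)
        _ = 64 * (2 * k).factorial * C * ((Q : ℝ) ^ (1 + 1 / (2 * B)) * (Q : ℝ) ^ (-(1 / B))) := by ring
        _ = 64 * (2 * k).factorial * C * (Q : ℝ) ^ (1 - 1 / (2 * B)) := by
            rw [← Real.rpow_add hQ0]
            congr 2
            field_simp
            ring
    have h1 : (E.card : ℝ) ≤ (Nb : ℝ) + 1 + 64 * (2 * k).factorial * C * (Q : ℝ) ^ (1 - 1 / (2 * B)) := by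
      have h2 : E.card ≤ (Nb + 1) + ((Ioc (Na - 1) Nb).biUnion (fun N => (Pm N).biUnion (fun w => bad Q N ε f w))).card := by
        rw [hE]
        refine (card_union_le _ _).trans (Nat.add_le_add_right ((card_union_le _ _).trans ?_) _)
        rw [Nat.card_Icc, card_singleton]
        omega
      have h3 : (E.card : ℝ) ≤ ((Nb : ℝ) + 1) +
          (((Ioc (Na - 1) Nb).biUnion (fun N => (Pm N).biUnion (fun w => bad Q N ε f w))).card : ℝ) := by
        exact_mod_cast h2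
      linarith
    have hBk : 1 / (k : ℝ) ≤ 1 - 1 / (2 * B) := by
      have h2 : 1 / (k : ℝ) ≤ 1 / 2 := one_div_le_one_div_of_le (by norm_num) hk2
      have h3 : 1 / (2 * B) ≤ 1 / 2 := one_div_le_one_div_of_le (by norm_num) (by linarith)
      linarith
    have h2 : (Nb : ℝ) ≤ (Q : ℝ) ^ (1 - 1 / (2 * B)) := hNb1.trans (Real.rpow_le_rpow_of_exponent_le hQr hBk)
    have h3 : (1 : ℝ) ≤ (Q : ℝ) ^ (1 - 1 / (2 * B)) := by
      apply Real.one_le_rpow hQr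
      have : (0 : ℝ) < 1 / k := by positivity
      linarith
    calc (E.card : ℝ) ≤ K * (Q : ℝ) ^ (1 - 1 / (2 * B)) := by
          rw [hK]
          linarith
      _ ≤ (Q : ℝ) ^ (1 / (4 * B)) * (Q : ℝ) ^ (1 - 1 / (2 * B)) := mul_le_mul_of_nonneg_right q1 (by positivity)
      _ = (Q : ℝ) ^ (1 - 1 / (4 * B)) := by
          rw [← Real.rpow_add hQ0]
          congr 1
          field_simp
          ring
  · intro l hl hlQ hlE N hNlow hNup
    rw [hE, mem_union, mem_union, mem_Icc, mem_singleton, mem_biUnion] at hlE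
    push Not at hlE
    obtain ⟨⟨hl1, hl2⟩, hl3⟩ := hlE
    have hNb2 : N ≤ Nb := by
      rw [hNb]
      exact Nat.le_floor hNup
    have hNa4 : Na ≤ N := by
      rw [hNa]
      exact Nat.ceil_le.2 hNlow
    have hNl : N < l := by
      have := hl1 hl.one_lt.le
      omega
    refine ⟨hNl, fun y z q a hyz hz hq => ?_⟩
    refine good_bound Q N ε C1 hε hC1 hdiv (by omega) (hN1 N (by omega)) f hf l hl hl2 hNl hlQ ?_ y z q a hyz hz hq
    intro w hw hlw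
    exact hl3 N (mem_Ioc.2 ⟨by omega, hNb2⟩) (mem_biUnion.2 ⟨w, hw, hlw⟩)

end Pool.Agent.L0h41.MQ
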