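import Pool.Agent.L0h41.MQ.C

set_option autoImplicit false

/-!
# Prime powers in arithmetic progressions twisted by Legendre symbols: moments
-/

namespace Pool.Agent.L0h41.MQ

open Finset Filter
open ArithmeticFunction (vonMangoldt)
open Pool.Agent.H306R2.RZ Pool.Agent.L0h54.GC

lemma natlog_le2 (N : ℕ) (hN : 2 ≤ N) : (Nat.log 2 N : ℝ) + 1 ≤ 3 * Real.log N := by
  have hN0 : (0 : ℝ) < N := by exact_mod_cast (by omega : 0 < N)
  have h1 : (Nat.log 2 N : ℝ) * Real.log 2 ≤ Real.log N := by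
    rw [← Real.log_pow]
    apply Real.log_le_log (by positivity)
    exact_mod_cast Nat.pow_log_le_self 2 (by omega)
  have h2 := Real.log_two_gt_d9
  have h3 : Real.log 2 ≤ Real.log N := Real.log_le_log (by norm_num) (by exact_mod_cast hN)
  have h4 : (0 : ℝ) ≤ Nat.log 2 N := Nat.cast_nonneg _
  nlinarith

open Classical in
/-- the squares -/
theorem even_part (N y z q a : ℕ) (C1 η : ℝ) (hη : 0 < η) (hC1 : 0 < C1)
    (hdiv : ∀ n : ℕ, 1 ≤ n → (n.divisors.card : ℝ) ≤ C1 * (n : ℝ) ^ η) (hN : 1 ≤ N)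
    (f : ℕ → ℝ) (hf : ∀ n, |f n| ≤ 1) (l : ℕ) (hyz : y ≤ z) (hz : z ≤ N) :
    |∑ n ∈ (AP y z q a).filter (fun n => IsSquare n), vonMangoldt n * f n * js (n : ℤ) l| ≤
      (Real.log N * (1 + √(2 * (C1 * (N : ℝ) ^ η)))) * √(ww y z q) := by
  have hN1 : (1 : ℝ) ≤ N := by exact_mod_cast hN
  have hlog0 : 0 ≤ Real.log N := Real.log_nonneg hN1
  have hww := one_le_ww (q := q) hyz
  obtain ⟨W, hW⟩ : ∃ W, W = ww y z q := ⟨_, rfl⟩
  rw [← hW] at hww ⊢
  have hW0 : 0 < W := by linarith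
  have hsW : 1 ≤ √W := Real.one_le_sqrt.2 hww
  have hterm : ∀ n ∈ AP y z q a, |vonMangoldt n * f n * js (n : ℤ) l| ≤ Real.log N := by
    intro n hn
    rw [mem_AP] at hn
    rw [abs_mul, abs_mul, abs_of_nonneg ArithmeticFunction.vonMangoldt_nonneg]
    have h3 : vonMangoldt n ≤ Real.log N := ArithmeticFunction.vonMangoldt_le_log.trans
      (Real.log_le_log (by exact_mod_cast (by omega : 0 < n)) (by exact_mod_cast (by omega : n ≤ N)))
    have h4 : |js (n : ℤ) l| ≤ 1 := by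
      unfold js
      rcases jacobiSym.trichotomy (n : ℤ) l with h | h | h <;> rw [h] <;> simp
    calc vonMangoldt n * |f n| * |js (n : ℤ) l| ≤ Real.log N * 1 * 1 := by
          gcongr
          exact hf n
      _ = _ := by ring
  have h3 := sq_AP y z q a hyz (C1 * (N : ℝ) ^ η) (by positivity) (by
    intro d hd
    rw [mem_Ioc] at hd
    refine (hdiv d (by omega)).trans ?_
    apply mul_le_mul_of_nonneg_left _ hC1.le
    apply Real.rpow_le_rpow (Nat.cast_nonneg _) _ hη.le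
    exact_mod_cast (by omega : d ≤ N))
  have h4 : ((z : ℝ) - y) / q ≤ W := by
    rw [hW]
    unfold ww
    linarith
  have h5 : √(2 * (C1 * (N : ℝ) ^ η * (((z : ℝ) - y) / q))) ≤ √(2 * (C1 * (N : ℝ) ^ η)) * √W := by
    rw [← Real.sqrt_mul (by positivity)]
    apply Real.sqrt_le_sqrt
    calc 2 * (C1 * (N : ℝ) ^ η * (((z : ℝ) - y) / q)) ≤ 2 * (C1 * (N : ℝ) ^ η * W) := by gcongr
      _ = _ := by ring
  have h6 : (((AP y z q a).filter (fun n => IsSquare n)).card : ℝ) ≤ (1 + √(2 * (C1 * (N : ℝ) ^ η))) * √W := by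
    rw [add_mul, one_mul]
    linarith
  calc |∑ n ∈ (AP y z q a).filter (fun n => IsSquare n), vonMangoldt n * f n * js (n : ℤ) l| ≤
      ∑ n ∈ (AP y z q a).filter (fun n => IsSquare n), |vonMangoldt n * f n * js (n : ℤ) l| := abs_sum_le_sum_abs _ _
    _ ≤ ((AP y z q a).filter (fun n => IsSquare n)).card • Real.log N :=
        sum_le_card_nsmul _ _ _ fun n hn => hterm n (mem_filter.1 hn).1
    _ = ((AP y z q a).filter (fun n => IsSquare n)).card * Real.log N := nsmul_eq_mul _ _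
    _ ≤ ((1 + √(2 * (C1 * (N : ℝ) ^ η))) * √W) * Real.log N := mul_le_mul_of_nonneg_right h6 hlog0
    _ = _ := by ring

lemma even_pow_add (a b : ℝ) (k : ℕ) : (a + b) ^ (2 * k) ≤ 4 ^ k * (a ^ (2 * k) + b ^ (2 * k)) := by
  rw [pow_mul, pow_mul, pow_mul]
  have ha : 0 ≤ a ^ 2 := sq_nonneg a
  have hb : 0 ≤ b ^ 2 := sq_nonneg b
  have h1 : (a + b) ^ 2 ≤ 4 * max (a ^ 2) (b ^ 2) := by
    have h2 := le_max_left (a ^ 2) (b ^ 2)
    have h3 := le_max_right (a ^ 2) (b ^ 2)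
    nlinarith [sq_nonneg (a - b)]
  calc ((a + b) ^ 2) ^ k ≤ (4 * max (a ^ 2) (b ^ 2)) ^ k := pow_le_pow_left₀ (sq_nonneg _) h1 k
    _ = 4 ^ k * (max (a ^ 2) (b ^ 2)) ^ k := mul_pow _ _ _
    _ ≤ 4 ^ k * ((a ^ 2) ^ k + (b ^ 2) ^ k) := by
        apply mul_le_mul_of_nonneg_left _ (by positivity)
        rcases max_choice (a ^ 2) (b ^ 2) with h | h <;> rw [h]
        · have : 0 ≤ (b ^ 2) ^ k := by positivity
          linarith
        · have : 0 ≤ (a ^ 2) ^ k := by positivity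
          linarith

/-- **moments over the primes** -/
theorem moments (k : ℕ) (hk : 1 ≤ k) (ε : ℝ) (hε : 0 < ε) : ∃ C : ℝ, 0 < C ∧ ∀ Q N : ℕ, 2 ≤ N → N ^ k ≤ Q →
    ∀ f : ℕ → ℝ, (∀ n, |f n| ≤ 1) → ∀ y z q a : ℕ, y ≤ z → z ≤ N → 1 ≤ q →
      ∑ l ∈ (Ioc N Q).filter Nat.Prime, (∑ n ∈ AP y z q a, vonMangoldt n * f n * js (n : ℤ) l) ^ (2 * k) ≤
        C * (Q : ℝ) ^ (1 + ε) * ww y z q ^ k := by
  classical
  have hk0 : (0 : ℝ) < k := by exact_mod_cast hk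
  obtain ⟨θ, hθ⟩ : ∃ θ, θ = ε / (12 * k) := ⟨_, rfl⟩
  have hθ0 : 0 < θ := by rw [hθ]; positivity
  have hθk : θ * k = ε / 12 := by
    rw [hθ]
    field_simp
  obtain ⟨C1, hC1, hdiv⟩ := Pool.Agent.Helper112.divisor_bound (2 * θ) (by positivity)
  obtain ⟨C2, hC2, hLS⟩ := Pool.Agent.H423R2.RZL.HBLSn.HBLS (ε / 4) (by positivity)
  obtain ⟨Ka, hKa⟩ : ∃ Ka : ℝ, Ka = ((1 + √(2 * C1)) / θ) ^ (2 * k) := ⟨_, rfl⟩
  obtain ⟨Kb, hKb⟩ : ∃ Kb : ℝ, Kb = 2 * C2 * (4 * (2 * k).factorial * (3 / θ ^ 3) ^ k) := ⟨_, rfl⟩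
  have hKa0 : 0 < Ka := by rw [hKa]; positivity
  have hKb0 : 0 < Kb := by rw [hKb]; positivity
  refine ⟨4 ^ k * (Ka + Kb), by positivity, ?_⟩
  intro Q N hN hNQ f hf y z q a hyz hz hq
  have hN1 : (1 : ℝ) ≤ N := by exact_mod_cast (by omega : 1 ≤ N)
  have hN0 : (0 : ℝ) < N := by linarith
  have hlog0 : 0 ≤ Real.log N := Real.log_nonneg hN1
  have hNQ1 : N ≤ Q := (Nat.le_self_pow (by omega) N).trans hNQ
  have hQ1 : 1 ≤ Q := by omega
  have hNQr : (N : ℝ) ≤ Q := by exact_mod_cast hNQ1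
  have hQr : (1 : ℝ) ≤ Q := by exact_mod_cast hQ1
  have hQ0 : (0 : ℝ) < Q := by linarith
  have hww := one_le_ww (q := q) hyz
  obtain ⟨W, hW⟩ : ∃ W, W = ww y z q := ⟨_, rfl⟩
  rw [← hW] at hww ⊢
  have hW0 : 0 < W := by linarith
  have hlogθ : Real.log N ≤ (N : ℝ) ^ θ / θ := Real.log_le_rpow_div hN0.le hθ0
  obtain ⟨P, hP⟩ : ∃ P, P = (Ioc N Q).filter Nat.Prime := ⟨_, rfl⟩
  rw [← hP]
  have hPm : ∀ l ∈ P, l.Prime ∧ l ≠ 2 ∧ N < l ∧ l ≤ Q := by
    intro l hl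
    rw [hP, mem_filter, mem_Ioc] at hl
    exact ⟨hl.2, by omega, hl.1.1, hl.1.2⟩
  have hPc : (P.card : ℝ) ≤ Q := by
    have h1 : P ⊆ Ioc 0 Q := by
      intro l hl
      obtain ⟨h1, _, _, h4⟩ := hPm l hl
      rw [mem_Ioc]
      exact ⟨h1.pos, h4⟩
    have h2 := card_le_card h1
    rw [Nat.card_Ioc, Nat.sub_zero] at h2
    exact_mod_cast h2
  -- the decomposition
  have h1 : ∑ l ∈ P, (∑ n ∈ AP y z q a, vonMangoldt n * f n * js (n : ℤ) l) ^ (2 * k) ≤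
      4 ^ k * (∑ l ∈ P, (∑ n ∈ (AP y z q a).filter (fun n => IsSquare n), vonMangoldt n * f n * js (n : ℤ) l) ^ (2 * k) +
        ∑ l ∈ P, (∑ p ∈ (Icc 1 N).filter Nat.Prime, cf y z q a f p * js (p : ℤ) l) ^ (2 * k)) := by
    rw [← sum_add_distrib, mul_sum]
    refine sum_le_sum fun l hl => ?_
    obtain ⟨p1, p2, p3, p4⟩ := hPm l hl
    rw [decomp N y z q a hz f l p1 p3]
    exact even_pow_add _ _ k
  -- the squares
  have h2 : ∑ l ∈ P, (∑ n ∈ (AP y z q a).filter (fun n => IsSquare n), vonMangoldt n * f n * js (n : ℤ) l) ^ (2 * k) ≤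
      Ka * (Q : ℝ) ^ (1 + ε) * W ^ k := by
    have h3 : Real.log N * (1 + √(2 * (C1 * (N : ℝ) ^ (2 * θ)))) ≤ (1 + √(2 * C1)) / θ * (N : ℝ) ^ (2 * θ) := by
      have h4 : √(2 * (C1 * (N : ℝ) ^ (2 * θ))) = √(2 * C1) * (N : ℝ) ^ θ := by
        rw [← mul_assoc, Real.sqrt_mul (by positivity)]
        congr 1
        rw [Real.sqrt_eq_rpow, ← Real.rpow_mul hN0.le]
        congr 1
        ring
      rw [h4]
      have h5 : 1 ≤ (N : ℝ) ^ θ := Real.one_le_rpow hN1 hθ0.le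
      calc Real.log N * (1 + √(2 * C1) * (N : ℝ) ^ θ) ≤ (N : ℝ) ^ θ / θ * ((1 + √(2 * C1)) * (N : ℝ) ^ θ) := by
            apply mul_le_mul hlogθ _ (by positivity) (by positivity)
            nlinarith [Real.sqrt_nonneg (2 * C1)]
        _ = (1 + √(2 * C1)) / θ * ((N : ℝ) ^ θ * (N : ℝ) ^ θ) := by ring
        _ = (1 + √(2 * C1)) / θ * (N : ℝ) ^ (2 * θ) := by
            rw [← Real.rpow_add hN0]
            congr 2
            ring
    have h4 : ∀ l ∈ P, (∑ n ∈ (AP y z q a).filter (fun n => IsSquare n), vonMangoldt n * f n * js (n : ℤ) l) ^ (2 * k) ≤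
        Ka * (Q : ℝ) ^ ε * W ^ k := by
      intro l _
      have h5 := even_part N y z q a C1 (2 * θ) (by positivity) hC1 hdiv (by omega) f hf l hyz hz
      rw [← hW] at h5
      have h6 := h5.trans (mul_le_mul_of_nonneg_right h3 (Real.sqrt_nonneg W))
      rw [← (even_two_mul k).pow_abs]
      calc |∑ n ∈ (AP y z q a).filter (fun n => IsSquare n), vonMangoldt n * f n * js (n : ℤ) l| ^ (2 * k) ≤
          ((1 + √(2 * C1)) / θ * (N : ℝ) ^ (2 * θ) * √W) ^ (2 * k) := pow_le_pow_left₀ (abs_nonneg _) h6 _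
        _ = Ka * ((N : ℝ) ^ (2 * θ)) ^ (2 * k) * W ^ k := by
            rw [mul_pow, mul_pow, ← hKa, pow_mul √W, Real.sq_sqrt hW0.le]
        _ ≤ Ka * (Q : ℝ) ^ ε * W ^ k := by
            have h7 : ((N : ℝ) ^ (2 * θ)) ^ (2 * k) ≤ (Q : ℝ) ^ ε := by
              rw [← Real.rpow_natCast, ← Real.rpow_mul hN0.le]
              calc (N : ℝ) ^ (2 * θ * ((2 * k : ℕ) : ℝ)) ≤ (Q : ℝ) ^ (2 * θ * ((2 * k : ℕ) : ℝ)) :=
                    Real.rpow_le_rpow hN0.le hNQr (by positivity)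
                _ ≤ (Q : ℝ) ^ ε := by
                    apply Real.rpow_le_rpow_of_exponent_le hQr
                    push_cast
                    have : 2 * θ * (2 * k) = 4 * (θ * k) := by ring
                    rw [this, hθk]
                    linarith
            gcongr
    refine (sum_le_sum h4).trans ?_
    rw [sum_const, nsmul_eq_mul]
    calc (P.card : ℝ) * (Ka * (Q : ℝ) ^ ε * W ^ k) ≤ Q * (Ka * (Q : ℝ) ^ ε * W ^ k) :=
          mul_le_mul_of_nonneg_right hPc (by positivity)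
      _ = Ka * (Q : ℝ) ^ (1 + ε) * W ^ k := by
          rw [Real.rpow_add hQ0, Real.rpow_one]
          ring
  -- the odd prime powers
  have h3 : ∑ l ∈ P, (∑ p ∈ (Icc 1 N).filter Nat.Prime, cf y z q a f p * js (p : ℤ) l) ^ (2 * k) ≤
      Kb * (Q : ℝ) ^ (1 + ε) * W ^ k := by
    have hg : Real.log N ^ 2 * (Nat.log 2 N + 1) ≤ 3 / θ ^ 3 * (N : ℝ) ^ (3 * θ) := by
      have h4 := natlog_le2 N hN
      calc Real.log N ^ 2 * ((Nat.log 2 N : ℝ) + 1) ≤ Real.log N ^ 2 * (3 * Real.log N) := by gcongr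
        _ = 3 * Real.log N ^ 3 := by ring
        _ ≤ 3 * ((N : ℝ) ^ θ / θ) ^ 3 := by gcongr
        _ = 3 / θ ^ 3 * ((N : ℝ) ^ θ) ^ 3 := by
            rw [div_pow]
            ring
        _ = 3 / θ ^ 3 * (N : ℝ) ^ (3 * θ) := by
            rw [← Real.rpow_natCast ((N : ℝ) ^ θ) 3, ← Real.rpow_mul hN0.le]
            congr 2
            push_cast
            ring
    have hU := cf_sq N y z q a (by omega) hyz (by omega) hq f hf
    have hU2 : ∑ p ∈ (Icc 1 N).filter Nat.Prime, cf y z q a f p ^ 2 ≤ 3 / θ ^ 3 * (N : ℝ) ^ (3 * θ) * W := by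
      refine hU.trans ?_
      rw [hW]
      unfold ww
      apply mul_le_mul_of_nonneg_right hg
      rw [hW] at hW0
      unfold ww at hW0
      exact hW0.le
    obtain ⟨Bd, hBd⟩ : ∃ Bd, Bd = C2 * (((N ^ k : ℕ) : ℝ) * Q) ^ (ε / 4) * (((N ^ k : ℕ) : ℝ) + Q) := ⟨_, rfl⟩
    have hL := hLS (N ^ k) Q (Nat.one_le_pow _ _ (by omega)) hQ1
    rw [← hBd] at hL
    have hBd0 : 0 ≤ Bd := by rw [hBd]; positivity
    have hBd1 : Bd ≤ 2 * C2 * (Q : ℝ) ^ (1 + ε / 2) := by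
      have h1 : ((N ^ k : ℕ) : ℝ) ≤ Q := by exact_mod_cast hNQ
      have h2 : (((N ^ k : ℕ) : ℝ) * Q) ^ (ε / 4) ≤ (Q : ℝ) ^ (ε / 2) := by
        calc (((N ^ k : ℕ) : ℝ) * Q) ^ (ε / 4) ≤ ((Q : ℝ) * Q) ^ (ε / 4) := by
              apply Real.rpow_le_rpow (by positivity) _ (by positivity)
              exact mul_le_mul_of_nonneg_right h1 hQ0.le
          _ = (Q : ℝ) ^ (ε / 2) := by
              rw [← sq, ← Real.rpow_natCast, ← Real.rpow_mul hQ0.le]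
              congr 1
              push_cast
              ring
      rw [hBd]
      calc C2 * (((N ^ k : ℕ) : ℝ) * Q) ^ (ε / 4) * (((N ^ k : ℕ) : ℝ) + Q) ≤ C2 * (Q : ℝ) ^ (ε / 2) * (Q + Q) := by
            gcongr
        _ = 2 * C2 * (Q : ℝ) ^ (1 + ε / 2) := by
            rw [Real.rpow_add hQ0, Real.rpow_one]
            ring
    have h4 := mom ((Icc 1 N).filter Nat.Prime) N k (N ^ k) Q (fun p hp => by
        rw [mem_filter, mem_Icc] at hp
        exact ⟨hp.2, hp.1.2⟩) (cf y z q a f) (3 / θ ^ 3 * (N : ℝ) ^ (3 * θ) * W) Bd (by positivity) hU2 hBd0 hL le_rfl P hPm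
    refine h4.trans ?_
    have h5 : ((N : ℝ) ^ (3 * θ)) ^ k ≤ (Q : ℝ) ^ (ε / 2) := by
      rw [← Real.rpow_natCast, ← Real.rpow_mul hN0.le]
      calc (N : ℝ) ^ (3 * θ * (k : ℝ)) ≤ (Q : ℝ) ^ (3 * θ * (k : ℝ)) :=
            Real.rpow_le_rpow hN0.le hNQr (by positivity)
        _ ≤ (Q : ℝ) ^ (ε / 2) := by
            apply Real.rpow_le_rpow_of_exponent_le hQr
            have : 3 * θ * k = 3 * (θ * k) := by ring
            rw [this, hθk]
            linarith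
    calc Bd * (4 * (2 * k).factorial * (3 / θ ^ 3 * (N : ℝ) ^ (3 * θ) * W) ^ k) =
        Bd * (4 * (2 * k).factorial * ((3 / θ ^ 3) ^ k * ((N : ℝ) ^ (3 * θ)) ^ k * W ^ k)) := by
          rw [mul_pow, mul_pow]
      _ ≤ (2 * C2 * (Q : ℝ) ^ (1 + ε / 2)) * (4 * (2 * k).factorial * ((3 / θ ^ 3) ^ k * (Q : ℝ) ^ (ε / 2) * W ^ k)) := by
          gcongr
      _ = Kb * ((Q : ℝ) ^ (1 + ε / 2) * (Q : ℝ) ^ (ε / 2)) * W ^ k := by
          rw [hKb]
          ring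
      _ = Kb * (Q : ℝ) ^ (1 + ε) * W ^ k := by
          rw [← Real.rpow_add hQ0]
          congr 3
          ring
  calc _ ≤ 4 ^ k * (Ka * (Q : ℝ) ^ (1 + ε) * W ^ k + Kb * (Q : ℝ) ^ (1 + ε) * W ^ k) :=
        h1.trans (mul_le_mul_of_nonneg_left (add_le_add h2 h3) (by positivity))
    _ = _ := by ring

end Pool.Agent.L0h41.MQ
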